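import Mathlib

set_option autoImplicit false

namespace Pool.Agent.Results.MP_a57927_nt.SqrtBound

open Finset

/-- The map `n ↦ φ(n) + 1`. -/
def f (n : ℕ) : ℕ := Nat.totient n + 1

/-- The number of iterations of `f` after which a prime is reached: the least `i` for which the
`i`-th iterate of `f` at `n` is prime. -/
noncomputable def c (n : ℕ) : ℕ := sInf {i : ℕ | Nat.Prime (f^[i] n)}

theorem tot_bound (p m : ℕ) (hp : 1 < p) : Nat.totient (p * m) + m ≤ p * m := by
  classical
  have h1 : Disjoint ((Finset.range (p * m)).filter (fun a => (p * m).Coprime a))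
      ((Finset.range m).image (fun j => p * j)) := by
    rw [Finset.disjoint_left]
    intro a ha hb
    rw [mem_filter] at ha
    rw [mem_image] at hb
    obtain ⟨j, _, rfl⟩ := hb
    have h2 : p ∣ Nat.gcd (p * m) (p * j) := Nat.dvd_gcd (Dvd.intro _ rfl) (Dvd.intro _ rfl)
    have h3 : Nat.gcd (p * m) (p * j) = 1 := ha.2
    rw [h3] at h2
    have := Nat.le_of_dvd one_pos h2
    omega
  have h2 : ((Finset.range (p * m)).filter (fun a => (p * m).Coprime a)) ∪
      ((Finset.range m).image (fun j => p * j)) ⊆ Finset.range (p * m) := by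
    intro a ha
    rw [mem_union] at ha
    rcases ha with ha | ha
    · exact (mem_filter.mp ha).1
    · rw [mem_image] at ha
      obtain ⟨j, hj, rfl⟩ := ha
      rw [mem_range] at hj ⊢
      exact Nat.mul_lt_mul_of_pos_left hj (by omega)
  have h3 := Finset.card_le_card h2
  rw [Finset.card_union_of_disjoint h1, card_range,
    Finset.card_image_of_injective _ (fun x y hxy => Nat.eq_of_mul_eq_mul_left (by omega) hxy),
    card_range] at h3
  exact h3

theorem main : ∀ n : ℕ, 1 ≤ n → ∃ i : ℕ, i * i ≤ 9 * n ∧ Nat.Prime (f^[i] n) := by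
  intro n
  induction n using Nat.strong_induction_on with
  | _ n ih =>
    intro hn
    by_cases hp : Nat.Prime n
    · exact ⟨0, by omega, hp⟩
    by_cases h1 : n = 1
    · subst h1
      refine ⟨1, by norm_num, ?_⟩
      have : f^[1] 1 = 2 := by
        rw [Function.iterate_one]
        unfold f
        rw [Nat.totient_one]
      rw [this]
      exact Nat.prime_two
    have hn2 : 2 ≤ n := by omega
    obtain ⟨m, hm⟩ := Nat.minFac_dvd n
    have hpp : Nat.Prime n.minFac := Nat.minFac_prime h1
    have hp1 : 1 < n.minFac := hpp.one_lt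
    have hsq : n.minFac ^ 2 ≤ n := Nat.minFac_sq_le_self (by omega) hp
    have hpm : n.minFac ≤ m := by
      have h2 : n.minFac * n.minFac ≤ n.minFac * m := by
        rw [← hm, ← sq]
        exact hsq
      exact Nat.le_of_mul_le_mul_left h2 (by omega)
    have hnm : n ≤ m * m := by
      calc n = n.minFac * m := hm
        _ ≤ m * m := Nat.mul_le_mul_right m hpm
    have htot : Nat.totient n + m ≤ n := by
      have := tot_bound n.minFac m hp1
      rwa [← hm] at this
    have hfn : f n + m ≤ n + 1 := by
      unfold f
      omega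
    have hm2 : 2 ≤ m := by omega
    have hf1 : 1 ≤ f n := by
      unfold f
      omega
    obtain ⟨i, hi, hpi⟩ := ih (f n) (by omega) hf1
    by_cases hm4 : 4 ≤ m
    · refine ⟨i + 1, ?_, ?_⟩
      · have hi3 : i ≤ 3 * m := by
          by_contra hcon
          push Not at hcon
          have h5 : (3 * m + 1) * (3 * m + 1) ≤ i * i := Nat.mul_le_mul hcon hcon
          nlinarith
        nlinarith
      · rw [Function.iterate_succ_apply]
        exact hpi
    · have hn9 : n ≤ 9 := by
        have : m ≤ 3 := by omega
        nlinarith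
      refine ⟨1, by omega, ?_⟩
      rw [Function.iterate_one]
      unfold f
      interval_cases n
      · exact absurd Nat.prime_two hp
      · exact absurd Nat.prime_three hp
      · have : Nat.totient 4 = 2 := by decide
        rw [this]
        norm_num
      · exact absurd Nat.prime_five hp
      · have : Nat.totient 6 = 2 := by decide
        rw [this]
        norm_num
      · exact absurd (by norm_num) hp
      · have : Nat.totient 8 = 4 := by decide
        rw [this]
        norm_num
      · have : Nat.totient 9 = 6 := by decide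
        rw [this]
        norm_num

/-- For every `n ≥ 1` a prime is reached, and the number of iterations needed is at most `3 √n`. -/
theorem result : ∀ n : ℕ, 1 ≤ n →
    (∃ i : ℕ, Nat.Prime (f^[i] n)) ∧ (c n : ℝ) ≤ 3 * Real.sqrt (n : ℝ) := by
  intro n hn
  obtain ⟨i, hi, hp⟩ := main n hn
  refine ⟨⟨i, hp⟩, ?_⟩
  have h1 : c n ≤ i := Nat.sInf_le hp
  have h2 : (i : ℝ) * (i : ℝ) ≤ 9 * (n : ℝ) := by exact_mod_cast hi
  have h3 : (i : ℝ) ≤ 3 * Real.sqrt (n : ℝ) := by
    have h4 : (0 : ℝ) ≤ 3 * Real.sqrt (n : ℝ) := by positivity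
    exact abs_le_of_sq_le_sq' (by nlinarith [Real.sq_sqrt (Nat.cast_nonneg (α := ℝ) n)]) h4 |>.2
  have h5 : (c n : ℝ) ≤ (i : ℝ) := by exact_mod_cast h1
  linarith

end Pool.Agent.Results.MP_a57927_nt.SqrtBound
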